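import Pool.Agent.H3.D2G.RecG

/-!
# Diagonal pairs in the first list of a record

`RecG.dgl`: the windows of the second list of a record as diagonal pairs of the first list.
-/

set_option autoImplicit false

namespace Pool.PKG

open MeasureTheory Set Filter Topology
open Pool.Agent.H49.Ent Pool.Agent.H32.Dense Pool.STK Pool.KA Pool.KSAT Pool.K2S Pool.PB
open Pool.GEN Pool.S6C Pool.STAT Pool.CHT Pool.GRW Pool.ONE Pool.STA
open Pool.LBT (LSys ThrOf)
open Pool.LEV (Law)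

/-- The record of one target with diagonal pairs. -/
theorem RecT.dgl {m : ℕ} {S : PCl m} {P P₂ : List (Fin m) × Fin m → ℝ → ℝ → ℝ} {θ θ₂ : ℝ}
    {c : ℕ → Fin m} {l : ℕ} {L : ℕ → ℝ → ℝ → ℝ} {S₀ N : ℕ} {A V : ℕ → ℝ} {S₂ N' : ℕ}
    {V' : ℕ → ℝ} {Eb e₂ K q t : ℝ}
    (W : RecT S P P₂ θ θ₂ c l L S₀ N A V S₂ N' V' Eb e₂ K q t) (hS : S₀ ≤ S₂) (M : ℕ)
    (i : ℕ → ℕ) (hi : ∀ k < M, i k < N') :
    RecT S P P₂ θ θ₂ c l L S₀ (N + M) (fun k => if k < N then A k else V' (i (k - N)))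
      (fun k => if k < N then V k else V' (i (k - N))) S₂ N' V' Eb e₂ K q t := by
  refine { W with pt := fun k hk => ?_, rat := fun k hk e he => ?_ }
  · by_cases h : k < N
    · simp only [h, if_true]
      exact W.pt k h
    · simp only [h, if_false]
      have h1 := (W.ptc (i (k - N)) (hi _ (by omega))).mono hS
      exact ⟨h1, h1⟩
  · by_cases h : k < N
    · simp only [h, if_true]
      exact W.rat k h e he
    · simp only [h, if_false]
      have hj := hi (k - N) (by omega)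
      obtain ⟨v, hv⟩ : ∃ v : ℝ, v = t + V' (i (k - N)) * q := ⟨_, rfl⟩
      have h1 := W.ptc (i (k - N)) hj
      obtain ⟨d, hd, h2⟩ := W.ratc (i (k - N)) hj e he
      rw [← hv] at h1 h2 ⊢
      obtain ⟨ρ, vs, e', e₀, E, sg, Q, k1, -, -⟩ := h1
      have hv0 := k1.w0
      have hv1 := k1.a1
      refine ⟨min d (1 - v), lt_min hd (by linarith), fun a' w' a1 a2 a3 a4 a5 => ?_⟩
      have d1 := min_le_left d (1 - v)
      have d2 := min_le_right d (1 - v)
      have h3 := h2 a' a1 (by linarith)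
      have h4 := h2 w' a3 (by linarith)
      refine ⟨?_, h4, h3⟩
      exact ((W.thr₂.law _).mono_w a' w' a' (by linarith) a5 le_rfl (by linarith)).trans
        (h3 l le_rfl)

/-- **The record with diagonal pairs**: the windows `V' (i k)`, `k < M`, of the second list in the
first list. -/
theorem RecG.dgl {m : ℕ} {S : PCl m} {al : ℝ} {g₀ : ℝ → ℝ}
    {P : List (Fin m) × Fin m → ℝ → ℝ → ℝ} {θ : ℝ}
    {P₂ : ℕ → List (Fin m) × Fin m → ℝ → ℝ → ℝ} {θ₂ Eb e₂ : ℕ → ℝ}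
    {c : ℕ → Fin m} {Pt : ℝ → ℝ → ℝ} {r : ℝ → ℝ} {h K₀ g : ℝ} {L T : ℕ → ℝ → ℝ → ℝ}
    {Sl : ℕ → ℝ} {κ : ℕ → Kg} {G : Set ℝ} {S₀ N : ℕ} {A V : ℕ → ℝ} {S₂ N' : ℕ} {V' : ℕ → ℝ}
    {K ε q t : ℝ}
    (R : RecG S al g₀ P θ P₂ θ₂ Eb e₂ c Pt r h K₀ g L T Sl κ G S₀ N A V S₂ N' V' K ε q t)
    (hS : S₀ ≤ S₂) (M : ℕ) (i : ℕ → ℕ) (hi : ∀ k < M, i k < N') :
    RecG S al g₀ P θ P₂ θ₂ Eb e₂ c Pt r h K₀ g L T Sl κ G S₀ (N + M)
      (fun k => if k < N then A k else V' (i (k - N)))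
      (fun k => if k < N then V k else V' (i (k - N))) S₂ N' V' K ε q t := by
  refine { R with
    memG := ⟨fun k hk => ?_, R.memG.2⟩
    TL := fun k hk l hl => ?_
    tg := fun l h1 h2 => RecT.dgl (R.tg l h1 h2) hS M i hi }
  · by_cases h : k < N
    · simp only [h, if_true]
      exact R.memG.1 k h
    · simp only [h, if_false]
      have := R.memG.2 (i (k - N)) (hi _ (by omega))
      exact ⟨this, this⟩
  · by_cases h : k < N
    · simp only [h, if_true]
      exact R.TL k h l hl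
    · simp only [h, if_false]
      have := R.TLc (i (k - N)) (hi _ (by omega)) l hl
      exact ⟨this, this⟩

end Pool.PKG
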